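import Pool.Agent.H395R2.G3.Main

/-!
The lower half of the conjecture on the scaled stopping time constant of the `3x+1` function,
together with the lower half of the large deviation law of the repeated random walk model.
-/

set_option autoImplicit false

namespace Pool.Agent.Results.MP_f7abf1_nt.LowerHalf

/-- The `3x+1` function. -/
def T (n : ℕ) : ℕ := if n % 2 = 0 then n / 2 else (3 * n + 1) / 2

/-- `k` is the total stopping time of `n`: the least `k ≥ 0` with `T^(k)(n) = 1` (so it is finite). -/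
def IsStoppingTime (n k : ℕ) : Prop := IsLeast {j : ℕ | T^[j] n = 1} k

/-- `g(a) = sup_θ (θ a - log (½ (2^θ + (2/3)^θ)))`. -/
noncomputable def g (a : ℝ) : ℝ :=
  ⨆ θ : ℝ, (θ * a - Real.log ((1 / 2) * ((2 : ℝ) ^ θ + (2 / 3 : ℝ) ^ θ)))

/-- There is exactly one real `γ₀ > (½ log (4/3))⁻¹` with `γ₀ g(1/γ₀) = 1` (the constant `γ_RRW`),
it lies between `41.6776` and `41.6777`, infinitely many `n` satisfy
`(γ₀ - ε) log n ≤ σ_∞(n) < ∞` for every `ε > 0` (so that `γ ≥ γ_RRW`), and for every `α` between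
`1 / log 2` and `γ₀` the number of `n ≤ x` with `|σ_∞(n) / log n - α| ≤ ε` is at least
`x^(1 - α g(1/α) - ε)` for all large `x`, the exponent `1 - α g(1/α)` being positive. -/
theorem result : ∃ γ₀ : ℝ,
    (γ₀ > ((1 / 2) * Real.log (4 / 3))⁻¹ ∧ γ₀ * g (1 / γ₀) = 1) ∧
    (∀ γ : ℝ, γ > ((1 / 2) * Real.log (4 / 3))⁻¹ → γ * g (1 / γ) = 1 → γ = γ₀) ∧
    (41.6776 < γ₀ ∧ γ₀ < 41.6777) ∧
    (∀ ε : ℝ, ε > 0 → ∀ N : ℕ, ∃ n : ℕ, N ≤ n ∧ 2 ≤ n ∧ ∃ k : ℕ, IsStoppingTime n k ∧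
      (γ₀ - ε) * Real.log n ≤ k) ∧
    (∀ α : ℝ, 1 / Real.log 2 < α → α < γ₀ → 0 < 1 - α * g (1 / α) ∧
      ∀ ε : ℝ, 0 < ε → ∃ X₀ : ℝ, ∀ x : ℝ, X₀ ≤ x →
        x ^ (1 - α * g (1 / α) - ε) ≤
          (Set.ncard {n : ℕ | 2 ≤ n ∧ (n : ℝ) ≤ x ∧
            ∃ k : ℕ, IsStoppingTime n k ∧ |(k : ℝ) / Real.log n - α| ≤ ε} : ℝ)) := by
  obtain ⟨γ₀, hnum, hγ, huniq, hlow, hld⟩ := Pool.Agent.H395R2.G3.main_gamma
  exact ⟨γ₀, hγ, huniq, hnum, hlow, hld⟩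

end Pool.Agent.Results.MP_f7abf1_nt.LowerHalf
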