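import Mathlib
import Pool.Agent.H499R2.HL.C

set_option autoImplicit false

/-! Runs of consecutive integers of equal total stopping time under the `3x+1` function. -/

namespace Pool.Agent.Results.MP_f7abf1_nt.Runs

open Filter Topology

/-- the `3x+1` function -/
def T (n : ℕ) : ℕ := if n % 2 = 0 then n / 2 else (3 * n + 1) / 2

/-- the total stopping time, the least `k ≥ 0` with `T^k(n) = 1`, and `⊤ = ∞` if there is none -/
noncomputable def sigma (n : ℕ) : ℕ∞ := sInf {k : ℕ∞ | ∃ j : ℕ, T^[j] n = 1 ∧ k = j}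

/-- the number of odd terms among `n, T n, ..., T^(k-1) n` -/
def odds (k n : ℕ) : ℕ := ((Finset.range k).filter fun i => T^[i] n % 2 = 1).card

/-- the positive integers with the property `P` have the natural density `δ` -/
def HasDensity (P : ℕ → Prop) (δ : ℝ) : Prop :=
  Tendsto (fun N : ℕ => ({n : ℕ | 1 ≤ n ∧ n ≤ N ∧ P n}.ncard : ℝ) / N) atTop (𝓝 δ)

open Pool.Agent.H499R2.HL (H) in
theorem sigma_eq {n k : ℕ} (h : H k n) : sigma n = k := by
  unfold sigma
  apply le_antisymm
  · exact sInf_le ⟨k, h.1, rfl⟩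
  · refine le_sInf ?_
    rintro _ ⟨j, hj, rfl⟩
    have : k ≤ j := by
      by_contra hlt
      exact h.2 j (by omega) hj
    exact_mod_cast this

open Pool.Agent.H499R2.HL (H) in
theorem sigma_top {n : ℕ} (h : ¬ ∃ k, H k n) : sigma n = ⊤ := by
  have : {k : ℕ∞ | ∃ j : ℕ, T^[j] n = 1 ∧ k = j} = ∅ := by
    rw [Set.eq_empty_iff_forall_notMem]
    rintro k ⟨j, hj, _⟩
    classical
    have hex : ∃ j, T^[j] n = 1 := ⟨j, hj⟩
    exact h ⟨Nat.find hex, Nat.find_spec hex, fun i hi => Nat.find_min hex hi⟩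
  unfold sigma
  rw [this, sInf_empty]

/-- RUNS OF EQUAL TOTAL STOPPING TIME. Let `g n = o(√(log n) / log log n)`. For almost all `n`, in the
sense of natural density, the integers `n, n + 1, ..., n + g(n)` all have the same total stopping time
(finite or infinite) and, if it is finite, the same number of odd terms before reaching `1`. -/
theorem result (g : ℕ → ℕ)
    (hg : Tendsto (fun n : ℕ => (g n : ℝ) * Real.log (Real.log n) / √ (Real.log n)) atTop (𝓝 0)) :
    HasDensity (fun n => ∀ h ≤ g n, sigma (n + h) = sigma n ∧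
      ∀ k : ℕ, sigma n = k → odds k (n + h) = odds k n) 1 := by
  have h1 := Pool.Agent.H499R2.HL.run_H (g := g) hg
  refine Pool.Agent.H499R2.CO.HD_congr h1 h1 fun n _ hE => ⟨fun _ => ?_, fun _ => hE⟩
  intro h hgh
  have h2 := hE h hgh
  by_cases hn : ∃ k, Pool.Agent.H499R2.HL.H k n
  · obtain ⟨k, hk⟩ := hn
    have h3 := sigma_eq hk
    refine ⟨by rw [h3, sigma_eq ((h2 k).1.2 hk)], fun j hj => ?_⟩
    rw [h3] at hj
    have h4 : k = j := by exact_mod_cast hj
    subst h4
    exact (h2 k).2 hk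
  · have h3 : ¬ ∃ k, Pool.Agent.H499R2.HL.H k (n + h) := fun ⟨k, hk⟩ => hn ⟨k, (h2 k).1.1 hk⟩
    refine ⟨by rw [sigma_top hn, sigma_top h3], fun j hj => ?_⟩
    rw [sigma_top hn] at hj
    exact absurd hj.symm (ENat.natCast_ne_top j)

end Pool.Agent.Results.MP_f7abf1_nt.Runs
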