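import Mathlib
import Pool.Agent.H499R2.CO.R6
import Pool.Agent.H499R2.NDCol

set_option autoImplicit false

/-! Sparse sufficient sets for the scaled total stopping times of the `3x+1` function. -/

namespace Pool.Agent.Results.MP_f7abf1_nt.SufficientSets

open Filter Topology

/-- the `3x+1` function -/
def T (n : ℕ) : ℕ := if n % 2 = 0 then n / 2 else (3 * n + 1) / 2

/-- the total stopping time, the least `k ≥ 0` with `T^k(n) = 1`, and `⊤ = ∞` if there is none -/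
noncomputable def sigma (n : ℕ) : ℕ∞ := sInf {k : ℕ∞ | ∃ j : ℕ, T^[j] n = 1 ∧ k = j}

/-- the positive integers with the property `P` have the natural density `δ` -/
def HasDensity (P : ℕ → Prop) (δ : ℝ) : Prop :=
  Tendsto (fun N : ℕ => ({n : ℕ | 1 ≤ n ∧ n ≤ N ∧ P n}.ncard : ℝ) / N) atTop (𝓝 δ)

theorem sigma_eq {n k : ℕ} (h : T^[k] n = 1 ∧ ∀ j < k, T^[j] n ≠ 1) : sigma n = k := by
  unfold sigma
  apply le_antisymm
  · exact sInf_le ⟨k, h.1, rfl⟩
  · refine le_sInf ?_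
    rintro _ ⟨j, hj, rfl⟩
    have : k ≤ j := by
      by_contra hlt
      exact h.2 j (by omega) hj
    exact_mod_cast this

theorem sigma_lt {n : ℕ} (h : ∃ k, T^[k] n = 1) : sigma n < ⊤ := by
  obtain ⟨k, hk⟩ := h
  exact lt_of_le_of_lt (sInf_le ⟨k, hk, rfl⟩) (ENat.natCast_lt_top k)

theorem of_sigma_lt {n : ℕ} (h : sigma n < ⊤) : ∃ k, T^[k] n = 1 := by
  by_contra hcon
  push Not at hcon
  have : {k : ℕ∞ | ∃ j : ℕ, T^[j] n = 1 ∧ k = j} = ∅ := by
    rw [Set.eq_empty_iff_forall_notMem]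
    rintro k ⟨j, hj, _⟩
    exact hcon j hj
  unfold sigma at h
  rw [this, sInf_empty] at h
  exact lt_irrefl _ h

/-- SUFFICIENT SETS. Let `g n = o(√(log n) / log log n)` and let the set `W` meet the interval
`[n, n + g n]` for every large `n`. If the total stopping time of every large `w` in `W` is finite
(in particular if the scaled total stopping times of the elements of `W` are bounded), then all total
stopping times are finite, and for every `ε > 0` almost all `n` have a scaled total stopping time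
within `ε` of `(½ log (4/3))⁻¹`. -/
theorem result (g : ℕ → ℕ)
    (hg : Tendsto (fun n : ℕ => (g n : ℝ) * Real.log (Real.log n) / √ (Real.log n)) atTop (𝓝 0))
    (W : Set ℕ) (hW : ∀ᶠ n : ℕ in atTop, ∃ j ≤ g n, n + j ∈ W)
    (h : ∀ᶠ n : ℕ in atTop, n ∈ W → sigma n < ⊤) :
    (∀ n : ℕ, 1 ≤ n → sigma n < ⊤) ∧
    ∀ ε : ℝ, 0 < ε → HasDensity (fun n => ∃ k : ℕ, sigma n = k ∧
      |(k : ℝ) / Real.log n - (1 / 2 * Real.log (4 / 3))⁻¹| ≤ ε) 1 := by
  have hinv : ∀ n, 1 ≤ n → ((∃ k, T^[k] n = 1) ↔ ∃ k, T^[k] (Pool.Agent.H499R2.ND.Tn n) = 1) :=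
    fun n _ => Pool.Agent.H499R2.ND.Bas_inv n
  obtain ⟨δ, _, _, h1, _, h3⟩ := Pool.Agent.H499R2.ND.nat_density (P := fun n => ∃ k, T^[k] n = 1) hinv
  have h6 := (Pool.Agent.H499R2.CO.run_invN (g := g) hg hinv h1).2
  obtain ⟨N1, hN1⟩ := eventually_atTop.1 hW
  obtain ⟨N2, hN2⟩ := eventually_atTop.1 h
  have h7 : Pool.Agent.H499R2.ND.Dn (fun n => ∀ h : ℕ, h ≤ g n → ¬ ∃ k, T^[k] (n + h) = 1) 0 := by
    refine Pool.Agent.H499R2.ND.zd_mono (Pool.Agent.H499R2.ND.zd_bdd (max N1 N2 : ℕ)) fun n hn hno => ?_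
    by_contra hlt
    rw [not_le] at hlt
    have hlt' : max N1 N2 < n := by exact_mod_cast hlt
    obtain ⟨j, hj, hjW⟩ := hN1 n ((le_max_left _ _).trans hlt'.le)
    exact hno j hj (of_sigma_lt (hN2 (n + j)
      (((le_max_right _ _).trans hlt'.le).trans (Nat.le_add_right _ _)) hjW))
  have h8 : 1 - δ = 0 := tendsto_nhds_unique h6 h7
  have hall : ∀ n, 1 ≤ n → ∃ k, T^[k] n = 1 := h3.1 (by linarith)
  refine ⟨fun n hn => sigma_lt (hall n hn), fun ε hε => ?_⟩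
  have hδ : δ = 1 := by linarith
  have hB : Pool.Agent.H499R2.ND.Dn Pool.Agent.H499R2.ND.Bas 1 := by rw [← hδ]; exact h1
  have h9 := Pool.Agent.H499R2.ND.bas_profile hB hε
  refine Pool.Agent.H499R2.ND.dn_congr h9 (Pool.Agent.H499R2.ND.zd_or (Pool.Agent.H499R2.ND.zd_bdd 1)
    (P := fun n : ℕ => (n : ℝ) ≤ 1 ∨ ¬ ∃ t : ℕ, Pool.Agent.H499R2.ND.Tn^[t] n = 1 ∧
      (∀ j < t, Pool.Agent.H499R2.ND.Tn^[j] n ≠ 1) ∧
      |(t : ℝ) - 2 / Real.log (4 / 3) * Real.log n| ≤ ε * Real.log n ∧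
      ∀ j ≤ t, |Real.log ((Pool.Agent.H499R2.ND.Tn^[j] n : ℕ) : ℝ)
        - (Real.log n - j / 2 * Real.log (4 / 3))| ≤ ε * Real.log n) ?_ (fun n _ hn => hn))
    fun n hn hE => ⟨fun _ => ?_, fun _ => ?_⟩
  · have h10 := Pool.Agent.H499R2.CO.HD_not h9
    rw [sub_self] at h10
    exact h10
  · rw [not_or, not_not, not_le] at hE
    obtain ⟨hn1, k, hk1, hk2, hk3, _⟩ := hE
    have hL : 0 < Real.log n := Real.log_pos hn1
    refine ⟨k, sigma_eq ⟨hk1, hk2⟩, ?_⟩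
    have e : (k : ℝ) / Real.log n - (1 / 2 * Real.log (4 / 3))⁻¹
        = ((k : ℝ) - 2 / Real.log (4 / 3) * Real.log n) / Real.log n := by
      have hnu : Real.log (4 / 3) ≠ 0 := (Real.log_pos (by norm_num)).ne'
      field_simp
    rw [e, abs_div, abs_of_pos hL, div_le_iff₀ hL]
    exact hk3
  · rw [not_or, not_not] at hE
    exact hE.2

end Pool.Agent.Results.MP_f7abf1_nt.SufficientSets
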